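import Pool.Agent.RK68.Zero

/-!
# The abstract theorem: a line meeting two thirds of the sets
-/

namespace Pool.Agent.RK68

open Real Set

variable {ι : Type} [Fintype ι] {S : Sys ι}

/-- Every six members have a common transversal. -/
def T6 (S : Sys ι) : Prop :=
  ∀ f : Fin 6 → ι, ∃ t c : ℝ, ∀ j, S.h (f j) t ≤ c ∧ S.h (f j) (t + π) ≤ -c

/-- Sets covering all directions of a pencil have no common transversal. -/
lemma no_cover (p : ℝ × ℝ) (f : Fin 6 → ι)
    (hf : ∃ t c : ℝ, ∀ j, S.h (f j) t ≤ c ∧ S.h (f j) (t + π) ≤ -c)
    (hc : ∀ t, ∃ j, 0 < g S (f j) p t) : False := by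
  obtain ⟨t, c, h⟩ := hf
  rcases le_or_gt c (-p.1 * sin t + p.2 * cos t) with h1 | h1
  · obtain ⟨j, hj⟩ := hc t
    have := (h j).1
    unfold g at hj
    linarith
  · obtain ⟨j, hj⟩ := hc (t + π)
    have := (h j).2
    unfold g at hj
    rw [sin_add_pi, cos_add_pi] at hj
    linarith

/-- Reduction to a period. -/
lemma cover_of_period (p : ℝ × ℝ) (f : Fin 6 → ι) (t0 : ℝ)
    (hc : ∀ t, t0 ≤ t → t ≤ t0 + 2 * π → ∃ j, 0 < g S (f j) p t) :
    ∀ t, ∃ j, 0 < g S (f j) p t := by
  intro t
  have hper : Function.Periodic (fun t : ℝ => fun j => g S (f j) p t) (2 * π) := by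
    intro t
    funext j
    exact g_per S (f j) p t
  obtain ⟨t', ht', he⟩ := hper.exists_mem_Ico (by positivity) t t0
  obtain ⟨j, hj⟩ := hc t' ht'.1 ht'.2.le
  refine ⟨j, ?_⟩
  have e1 : g S (f j) p t = g S (f j) p t' := congr_fun he j
  rw [e1]
  exact hj

/-- The line with direction `t` through `p` comes near to the set `i`. -/
def Close (S : Sys ι) (η : ℝ) (p : ℝ × ℝ) (t : ℝ) (i : ι) : Prop :=
  g S i p t ≤ η ∧ g S i p (t + π) ≤ η

open Classical in
/-- A line coming near to two thirds of the sets. -/
theorem two_thirds_soft (hT : T6 S) {η : ℝ} (hη : 0 < η) :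
    ∃ (p : ℝ × ℝ) (t : ℝ), 2 * Fintype.card ι ≤
      3 * (Finset.univ.filter fun i => Close S η p t i).card := by
  by_contra hno
  push Not at hno
  have hpi := pi_pos
  have hne : Nonempty ι := by
    by_contra hcon
    rw [not_nonempty_iff] at hcon
    have := hno 0 0
    simp at this
  -- every line misses something by more than η
  have hst : Star S η := by
    intro p t
    have h1 := hno p t
    have h2 : ∃ i, ¬ Close S η p t i := by
      by_contra hcon
      push Not at hcon
      have : (Finset.univ.filter fun i => Close S η p t i) = Finset.univ :=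
        Finset.filter_true_of_mem fun i _ => hcon i
      rw [this, Finset.card_univ] at h1
      omega
    obtain ⟨i, hi⟩ := h2
    have a1 := W_nonneg S p t t
    have a2 := W_nonneg S p (t + π) (t + π)
    unfold Close at hi
    rcases not_and_or.mp hi with h3 | h3
    · push Not at h3
      have := W_single S i (p := p) (s := t) (t := t) le_rfl (by linarith)
      rw [min_self] at this
      linarith
    · push Not at h3
      have := W_single S i (p := p) (s := t + π) (t := t + π) le_rfl (by linarith)
      rw [min_self] at this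
      linarith
  -- the level
  have hn0 : (0 : ℝ) ≤ Fintype.card ι := Nat.cast_nonneg _
  have hm0 : 0 < min 1 η := lt_min one_pos hη
  set κ : ℝ := min 1 η / (2 * (Fintype.card ι + 1)) / (1 + π) with hκdef
  have hκ : 0 < κ := by positivity
  have hκ1 : κ * (1 + π) = min 1 η / (2 * (Fintype.card ι + 1)) := by
    rw [hκdef]
    field_simp
  have hκη : κ * (1 + π) ≤ η / 2 := by
    rw [hκ1]
    have h1 : min 1 η / (2 * ((Fintype.card ι : ℝ) + 1)) ≤ min 1 η / 2 := by
      apply div_le_div_of_nonneg_left hm0.le (by norm_num)
      linarith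
    have := min_le_right 1 η
    linarith
  have hκ2 : 2 * κ ≤ η := by
    have : κ ≤ κ * (1 + π) := by nlinarith
    linarith
  obtain ⟨F, hF⟩ := exists_far S hκ
  -- bound
  obtain ⟨R, hR⟩ : ∃ R, ∀ i t, |S.h i t| ≤ R := by
    have h1 : ∀ i, ∃ R, ∀ t, |S.h i t| ≤ R := by
      intro i
      obtain ⟨R, hR⟩ := (isCompact_Icc (a := (0 : ℝ)) (b := 2 * π)).exists_bound_of_continuousOn
        (S.cont i).continuousOn
      refine ⟨R, fun t => ?_⟩
      have hper : Function.Periodic (S.h i) (2 * π) := S.per i
      obtain ⟨t', ht', he⟩ := hper.exists_mem_Ico₀ (by positivity) t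
      rw [he]
      exact hR t' ⟨ht'.1, ht'.2.le⟩
    choose R hR using h1
    refine ⟨∑ i, |R i|, fun i t => (hR i t).trans ((le_abs_self _).trans ?_)⟩
    exact Finset.single_le_sum (f := fun i => |R i|) (fun i _ => abs_nonneg _)
      (Finset.mem_univ i)
  obtain ⟨p, t, a, b, e, h1, h1', h2, h2', h3, h3'⟩ :=
    exists_balanced hκ hF hst hη hκ1.le hR
  -- the steps
  have step : ∀ s u, F (p, s) = u → F (p, s + π) = u + π → s ≤ u ∧ u ≤ s + π := by
    intro s u hs hs'
    have h4 := a1_ge hκ hF hst hκ2 p s
    unfold a1 at h4
    rw [hs, hs', add_sub_cancel_right, max_self] at h4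
    have h5 := far_lt hκ hF p s
    rw [hs] at h5
    exact ⟨h4, h5.le⟩
  have s1 := step t a h1 h1'
  have s2 := step a b h2 h2'
  have s3 := step b e h3 h3'
  have wv : ∀ s u, F (p, s) = u → s ≤ u → u ≤ s + π →
      0 < W S p s u ∧ W S p s u ≤ η / 2 := by
    intro s u hs hsu hus
    have h4 := hF.2 p s
    rw [hs] at h4
    rw [h4]
    constructor
    · have : 0 < 1 + u - s := by linarith
      positivity
    · refine le_trans ?_ hκη
      exact mul_le_mul_of_nonneg_left (by linarith) hκ.le
  have v1 := wv t a h1 s1.1 s1.2
  have v1' := wv (t + π) (a + π) h1' (by linarith) (by linarith)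
  have v2 := wv a b h2 s2.1 s2.2
  have v2' := wv (a + π) (b + π) h2' (by linarith) (by linarith)
  have v3 := wv b e h3 s3.1 s3.2
  have v3' := wv (b + π) (e + π) h3' (by linarith) (by linarith)
  rcases le_or_gt (t + π) e with hcase | hcase
  · -- six sets without a transversal
    obtain ⟨i1, i1a, i1b⟩ := W_pos_exists S s1.1 s1.2 v1.1
    obtain ⟨j1, j1a, j1b⟩ := W_pos_exists S (by linarith) (by linarith) v1'.1
    obtain ⟨i2, i2a, i2b⟩ := W_pos_exists S s2.1 s2.2 v2.1
    obtain ⟨j2, j2a, j2b⟩ := W_pos_exists S (by linarith) (by linarith) v2'.1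
    obtain ⟨i3, i3a, i3b⟩ := W_pos_exists S s3.1 s3.2 v3.1
    obtain ⟨j3, j3a, j3b⟩ := W_pos_exists S (by linarith) (by linarith) v3'.1
    have seg : ∀ (i : ι) (s u v : ℝ), 0 < g S i p s → 0 < g S i p v → s ≤ u → u ≤ v →
        v ≤ s + π → 0 < g S i p u := by
      intro i s u v hs hv hsu huv hvs
      exact lt_of_lt_of_le (lt_min hs hv)
        (g_mid S hsu huv hvs (lt_min hs hv) (min_le_left _ _) (min_le_right _ _))
    refine no_cover p ![i1, j1, i2, j2, i3, j3] (hT _) (cover_of_period p _ t ?_)
    intro u hu1 hu2
    rcases le_or_gt u a with c1 | c1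
    · exact ⟨0, seg i1 t u a i1a i1b hu1 c1 s1.2⟩
    rcases le_or_gt u b with c2 | c2
    · exact ⟨2, seg i2 a u b i2a i2b c1.le c2 s2.2⟩
    rcases le_or_gt u e with c3 | c3
    · exact ⟨4, seg i3 b u e i3a i3b c2.le c3 s3.2⟩
    rcases le_or_gt u (a + π) with c4 | c4
    · exact ⟨1, seg j1 (t + π) u (a + π) j1a j1b (by linarith) c4 (by linarith)⟩
    rcases le_or_gt u (b + π) with c5 | c5
    · exact ⟨3, seg j2 (a + π) u (b + π) j2a j2b c4.le c5 (by linarith)⟩
    · exact ⟨5, seg j3 (b + π) u (e + π) j3a j3b c5.le (by linarith) (by linarith)⟩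
  · -- three lines
    -- no set is far on the same side of consecutive lines
    have cons : ∀ (i : ι) (s u : ℝ), W S p s u ≤ η / 2 → s ≤ u → u ≤ s + π →
        η < g S i p s → η < g S i p u → False := by
      intro i s u hW hsu hus hs hu
      have := W_single S i (p := p) hsu hus
      have h4 : η < min (g S i p s) (g S i p u) := lt_min hs hu
      linarith
    have v4 : W S p b (t + π) ≤ η / 2 := (W_anti S p b hcase.le).trans v3.2
    have v4' : W S p (b + π) (t + 2 * π) ≤ η / 2 :=
      (W_anti S p (b + π) (by linarith : e + π ≤ t + 2 * π)).trans v3'.2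
    have mid : ∀ (i : ι) (s u v : ℝ), s ≤ u → u ≤ v → v ≤ s + π →
        η < g S i p s → η < g S i p v → η < g S i p u := by
      intro i s u v hsu huv hvs hs hv
      have h4 : η < min (g S i p s) (g S i p v) := lt_min hs hv
      exact h4.trans_le (g_mid S hsu huv hvs (hη.trans h4) (min_le_left _ _) (min_le_right _ _))
    have per : ∀ (i : ι) (s : ℝ), g S i p (s + 2 * π) = g S i p s := fun i s => g_per S i p s
    -- two of the three lines cannot both be far from a set
    have two : ∀ i, (¬ Close S η p t i → Close S η p a i) ∧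
        (¬ Close S η p t i → Close S η p b i) ∧ (¬ Close S η p a i → Close S η p b i) := by
      intro i
      have key : ∀ s u, (η < g S i p s → η < g S i p u → False) →
          (η < g S i p s → η < g S i p (u + π) → False) →
          (η < g S i p (s + π) → η < g S i p u → False) →
          (η < g S i p (s + π) → η < g S i p (u + π) → False) →
          (¬ Close S η p s i → Close S η p u i) := by
        intro s u k1 k2 k3 k4 hs
        unfold Close at hs ⊢
        rcases not_and_or.mp hs with h4 | h4
        · push Not at h4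
          exact ⟨not_lt.mp fun h5 => k1 h4 h5, not_lt.mp fun h5 => k2 h4 h5⟩
        · push Not at h4
          exact ⟨not_lt.mp fun h5 => k3 h4 h5, not_lt.mp fun h5 => k4 h4 h5⟩
      refine ⟨key t a ?_ ?_ ?_ ?_, key t b ?_ ?_ ?_ ?_, key a b ?_ ?_ ?_ ?_⟩
      · exact cons i t a v1.2 s1.1 s1.2
      · intro x y
        have x' : η < g S i p (t + 2 * π) := by rw [per]; exact x
        have z := mid i (a + π) (b + π) (t + 2 * π) (by linarith) (by linarith) (by linarith) y x'
        exact cons i (a + π) (b + π) v2'.2 (by linarith) (by linarith) y z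
      · intro x y
        have z := mid i a b (t + π) (by linarith) (by linarith) (by linarith) y x
        exact cons i a b v2.2 s2.1 s2.2 y z
      · exact cons i (t + π) (a + π) v1'.2 (by linarith) (by linarith)
      · intro x y
        have z := mid i t a b s1.1 s2.1 (by linarith) x y
        exact cons i t a v1.2 s1.1 s1.2 x z
      · intro x y
        have x' : η < g S i p (t + 2 * π) := by rw [per]; exact x
        exact cons i (b + π) (t + 2 * π) v4' (by linarith) (by linarith) y x'
      · intro x y
        exact cons i b (t + π) v4 (by linarith) (by linarith) y x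
      · intro x y
        have z := mid i (t + π) (a + π) (b + π) (by linarith) (by linarith) (by linarith) x y
        exact cons i (t + π) (a + π) v1'.2 (by linarith) (by linarith) x z
      · exact cons i a b v2.2 s2.1 s2.2
      · intro x y
        have x' : η < g S i p (a + 2 * π) := by rw [per]; exact x
        have z := mid i (b + π) (t + 2 * π) (a + 2 * π) (by linarith) (by linarith)
          (by linarith) y x'
        exact cons i (b + π) (t + 2 * π) v4' (by linarith) (by linarith) y z
      · intro x y
        have z := mid i b (t + π) (a + π) (by linarith) (by linarith) (by linarith) y x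
        exact cons i b (t + π) v4 (by linarith) (by linarith) y z
      · exact cons i (a + π) (b + π) v2'.2 (by linarith) (by linarith)
    -- counting
    have cnt : 2 * Fintype.card ι ≤ (Finset.univ.filter fun i => Close S η p t i).card +
        (Finset.univ.filter fun i => Close S η p a i).card +
        (Finset.univ.filter fun i => Close S η p b i).card := by
      have e1 : ∀ P : ι → Prop, (Finset.univ.filter P).card = ∑ i, if P i then 1 else 0 := by
        intro P
        rw [Finset.card_filter]
      rw [e1, e1, e1, ← Finset.sum_add_distrib, ← Finset.sum_add_distrib]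
      calc 2 * Fintype.card ι = ∑ _i : ι, 2 := by
            rw [Finset.sum_const, Finset.card_univ, smul_eq_mul, mul_comm]
        _ ≤ _ := by
            refine Finset.sum_le_sum fun i _ => ?_
            obtain ⟨q1, q2, q3⟩ := two i
            by_cases r1 : Close S η p t i
            · by_cases r2 : Close S η p a i
              · simp [r1, r2]
              · simp [r1, r2, q3 r2]
            · simp [r1, q1 r1, q2 r1]
    have n1 := hno p t
    have n2 := hno p a
    have n3 := hno p b
    omega

end Pool.Agent.RK68
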