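import Mathlib

/-!
# A zero of an odd map of an annulus, and continuous roots of monotone equations
-/

namespace Pool.Agent.RK68

open Set Complex

/-- A continuous nowhere vanishing complex function on the plane has a continuous logarithm. -/
lemma exists_log (f : ℝ × ℝ → ℂ) (hf : Continuous f) (h0 : ∀ x, f x ≠ 0) :
    ∃ L : ℝ × ℝ → ℂ, Continuous L ∧ ∀ x, exp (L x) = f x := by
  have h1 : exp (Complex.log (f (0, 0))) = (⟨f, hf⟩ : C(ℝ × ℝ, ℂ)) (0, 0) :=
    exp_log (h0 _)
  obtain ⟨L, ⟨-, hL⟩, -⟩ := isCoveringMapOn_exp.existsUnique_continuousMap_lifts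
    (⟨f, hf⟩ : C(ℝ × ℝ, ℂ)) h1 (fun x => h0 x)
  exact ⟨L, L.continuous, fun x => congr_fun hL x⟩

/-- Uniqueness of continuous logarithms. -/
lemma log_unique {A : Type*} [TopologicalSpace A] [PreconnectedSpace A] (L M : A → ℂ)
    (hL : Continuous L) (hM : Continuous M) (h : ∀ x, exp (L x) = exp (M x)) (a : A)
    (ha : L a = M a) : L = M := by
  refine isCoveringMap_exp.eq_of_comp_eq hL hM ?_ a ha
  funext x
  exact Subtype.ext (h x)

/-- The annulus lemma. -/
theorem annulus (w1 w2 : ℝ × ℝ → ℝ) (h1 : Continuous w1) (h2 : Continuous w2) (C : ℝ)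
    (hC : 0 ≤ C)
    (per1 : ∀ t c, w1 (t + 2 * Real.pi, c) = w1 (t, c))
    (per2 : ∀ t c, w2 (t + 2 * Real.pi, c) = w2 (t, c))
    (odd1 : ∀ t, w1 (t + Real.pi, 0) = - w1 (t, 0))
    (odd2 : ∀ t, w2 (t + Real.pi, 0) = - w2 (t, 0))
    (pos : ∀ t, 0 < w1 (t, C)) :
    ∃ t c, 0 ≤ c ∧ c ≤ C ∧ w1 (t, c) = 0 ∧ w2 (t, c) = 0 := by
  by_contra hno
  push Not at hno
  set cl : ℝ × ℝ → ℝ × ℝ := fun x => (x.1, max 0 (min x.2 C)) with hcl
  have hclc : Continuous cl := by fun_prop
  set f : ℝ × ℝ → ℂ := fun x => (w1 (cl x) : ℂ) + (w2 (cl x) : ℂ) * I with hf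
  have hfc : Continuous f := by
    have a1 : Continuous fun x => (w1 (cl x) : ℂ) :=
      continuous_ofReal.comp (h1.comp hclc)
    have a2 : Continuous fun x => (w2 (cl x) : ℂ) :=
      continuous_ofReal.comp (h2.comp hclc)
    exact a1.add (a2.mul continuous_const)
  have hre : ∀ x, (f x).re = w1 (cl x) := fun x => by simp [hf]
  have him : ∀ x, (f x).im = w2 (cl x) := fun x => by simp [hf]
  have hne : ∀ x, f x ≠ 0 := by
    intro x hx
    have e1 : w1 (cl x) = 0 := by rw [← hre, hx, zero_re]
    have e2 : w2 (cl x) = 0 := by rw [← him, hx, zero_im]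
    exact hno x.1 (max 0 (min x.2 C)) (le_max_left _ _)
      (max_le hC (min_le_right _ _)) e1 e2
  obtain ⟨L, hLc, hL⟩ := exists_log f hfc hne
  -- periodicity of the function
  have hper : ∀ t c, f (t + 2 * Real.pi, c) = f (t, c) := by
    intro t c
    simp only [hf, hcl, per1, per2]
  have hodd : ∀ t, f (t + Real.pi, 0) = - f (t, 0) := by
    intro t
    have e0 : max 0 (min (0 : ℝ) C) = 0 := by
      rw [min_eq_left hC, max_self]
    simp only [hf, hcl, e0, odd1, odd2]
    push_cast
    ring
  -- the monodromy is constant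
  have hmon : ∀ t c, L (t + 2 * Real.pi, c) = L (t, c) + (L (0 + 2 * Real.pi, C) - L (0, C)) := by
    have := log_unique (fun x : ℝ × ℝ => L (x.1 + 2 * Real.pi, x.2))
      (fun x : ℝ × ℝ => L x + (L (0 + 2 * Real.pi, C) - L (0, C))) (by fun_prop) (by fun_prop)
      (by
        intro x
        simp only [Complex.exp_add, Complex.exp_sub, hL]
        rw [hper, hper, div_self (hne _), mul_one]) (0, C) (by ring)
    intro t c
    exact congr_fun this (t, c)
  have hmon2 : ∀ t, L (t + Real.pi, 0) = L (t, 0) + (L (0 + Real.pi, 0) - L (0, 0)) := by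
    have := log_unique (fun x : ℝ => L (x + Real.pi, 0))
      (fun x : ℝ => L (x, 0) + (L (0 + Real.pi, 0) - L (0, 0))) (by fun_prop) (by fun_prop)
      (by
        intro x
        simp only [Complex.exp_add, Complex.exp_sub, hL]
        rw [hodd, hodd, neg_div, div_self (hne _)]
        ring) 0 (by ring)
    intro t
    exact congr_fun this t
  -- the monodromy at the top is zero
  have htop : L (0 + 2 * Real.pi, C) = L (0, C) := by
    have he : exp (L (0 + 2 * Real.pi, C) - L (0, C)) = 1 := by
      rw [Complex.exp_sub, hL, hL, hper, div_self (hne _)]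
    obtain ⟨n, hn⟩ := Complex.exp_eq_one_iff.mp he
    have hpos : ∀ t, 0 < Real.cos (L (t, C)).im := by
      intro t
      have e1 : (f (t, C)).re = w1 (t, C) := by
        rw [hre]
        simp only [hcl, min_self, max_eq_right hC]
      have e2 : (f (t, C)).re = Real.exp (L (t, C)).re * Real.cos (L (t, C)).im := by
        rw [← hL, Complex.exp_re]
      have e3 : 0 < Real.exp (L (t, C)).re * Real.cos (L (t, C)).im := by
        rw [← e2, e1]; exact pos t
      exact (pos_iff_pos_of_mul_pos e3).mp (Real.exp_pos _)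
    have hgc : Continuous fun t : ℝ => (L (t, C)).im := by fun_prop
    have hn2 : (L (0 + 2 * Real.pi, C)).im = (L (0, C)).im + n * (2 * Real.pi) := by
      have := congrArg Complex.im hn
      rw [Complex.sub_im] at this
      have h7 : ((n : ℂ) * (2 * (Real.pi : ℂ) * I)).im = n * (2 * Real.pi) := by simp
      linarith
    have hn0 : n = 0 := by
      by_contra hnn
      have key : ∀ v : ℝ, v ∈ uIcc (L (0, C)).im (L (0 + 2 * Real.pi, C)).im → 0 < Real.cos v := by
        intro v hv
        obtain ⟨t, -, ht⟩ := intermediate_value_uIcc (a := 0) (b := 0 + 2 * Real.pi)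
          (f := fun t : ℝ => (L (t, C)).im) hgc.continuousOn hv
        rw [← ht]; exact hpos t
      have hp := Real.pi_pos
      have hc0 := hpos 0
      rcases lt_or_gt_of_ne hnn with h | h
      · have hn1 : (n : ℝ) ≤ -1 := by exact_mod_cast (by omega : n ≤ -1)
        have := key ((L (0, C)).im - Real.pi) (by
          rw [hn2, mem_uIcc]
          right
          constructor
          · nlinarith
          · linarith)
        rw [Real.cos_sub_pi] at this
        linarith
      · have hn1 : (1 : ℝ) ≤ n := by exact_mod_cast (by omega : 1 ≤ n)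
        have := key ((L (0, C)).im + Real.pi) (by
          rw [hn2, mem_uIcc]
          left
          constructor
          · linarith
          · nlinarith)
        rw [Real.cos_add_pi] at this
        linarith
    rw [hn0] at hn
    have : L (0 + 2 * Real.pi, C) - L (0, C) = 0 := by rw [hn]; simp
    exact sub_eq_zero.mp this
  -- the contradiction at the bottom
  have e1 := hmon 0 0
  rw [htop, sub_self, add_zero] at e1
  have e2 := hmon2 0
  have e3 := hmon2 (0 + Real.pi)
  have e4 : (0 : ℝ) + Real.pi + Real.pi = 0 + 2 * Real.pi := by ring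
  rw [e4, e1] at e3
  have e5 : L (0 + Real.pi, 0) = L (0, 0) := by
    have : (2 : ℂ) * (L (0 + Real.pi, 0) - L (0, 0)) = 0 := by
      linear_combination -e3
    have h3 := (mul_eq_zero.mp this).resolve_left two_ne_zero
    exact sub_eq_zero.mp h3
  have e6 : f (0 + Real.pi, 0) = f (0, 0) := by rw [← hL, e5, hL]
  rw [hodd] at e6
  have e7 : (2 : ℂ) * f (0, 0) = 0 := by linear_combination -e6
  exact hne _ ((mul_eq_zero.mp e7).resolve_left two_ne_zero)

/-- Continuous root of a family of strictly decreasing functions. -/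
theorem exists_root {X : Type*} [TopologicalSpace X] (Φ : X × ℝ → ℝ) (hc : Continuous Φ)
    (hm : ∀ x, StrictAnti fun t => Φ (x, t)) (hex : ∀ x, ∃ t, Φ (x, t) = 0) :
    ∃ F : X → ℝ, Continuous F ∧ ∀ x, Φ (x, F x) = 0 := by
  choose F hF using hex
  refine ⟨F, ?_, hF⟩
  rw [continuous_iff_continuousAt]
  intro x
  refine tendsto_order.mpr ⟨fun a ha => ?_, fun b hb => ?_⟩
  · have h1 : 0 < Φ (x, a) := by rw [← hF x]; exact hm x ha
    have h2 : ∀ᶠ y in nhds x, 0 < Φ (y, a) :=
      (hc.comp (Continuous.prodMk_left a)).continuousAt.eventually (lt_mem_nhds h1)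
    filter_upwards [h2] with y hy
    by_contra hcon
    push Not at hcon
    have := (hm y).antitone hcon
    simp only [hF y] at this
    linarith
  · have h1 : Φ (x, b) < 0 := by rw [← hF x]; exact hm x hb
    have h2 : ∀ᶠ y in nhds x, Φ (y, b) < 0 :=
      (hc.comp (Continuous.prodMk_left b)).continuousAt.eventually (gt_mem_nhds h1)
    filter_upwards [h2] with y hy
    by_contra hcon
    push Not at hcon
    have := (hm y).antitone hcon
    simp only [hF y] at this
    linarith

end Pool.Agent.RK68
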