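import Pool.Agent.RK68.Annulus

/-!
# Softened far directions of a pencil
-/

namespace Pool.Agent.RK68

open Real Set

/-- Abstract support data of a finite family of compact convex sets:
`h i t` is the minimum of `-x sin t + y cos t` on the set `i`. -/
structure Sys (ι : Type) [Fintype ι] where
  h : ι → ℝ → ℝ
  cont : ∀ i, Continuous (h i)
  per : ∀ i t, h i (t + 2 * π) = h i t
  opp : ∀ i t, h i t + h i (t + π) ≤ 0
  conv : ∀ i s t u, s ≤ t → t ≤ u → u ≤ s + π →
    sin (u - t) * h i s + sin (t - s) * h i u ≤ sin (u - s) * h i t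

variable {ι : Type} [Fintype ι] (S : Sys ι)

/-- Signed distance of the set `i` to the line through `p` in the direction `t`. -/
noncomputable def g (i : ι) (p : ℝ × ℝ) (t : ℝ) : ℝ := S.h i t + p.1 * sin t - p.2 * cos t

lemma g_cont (i : ι) : Continuous fun x : (ℝ × ℝ) × ℝ => g S i x.1 x.2 := by
  have := S.cont i
  unfold g
  fun_prop

lemma g_per (i : ι) (p : ℝ × ℝ) (t : ℝ) : g S i p (t + 2 * π) = g S i p t := by
  simp only [g, S.per, sin_add_two_pi, cos_add_two_pi]

lemma g_opp (i : ι) (p : ℝ × ℝ) (t : ℝ) : g S i p t + g S i p (t + π) ≤ 0 := by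
  simp only [g, sin_add_pi, cos_add_pi]
  have := S.opp i t
  linarith

lemma g_conv (i : ι) (p : ℝ × ℝ) (s t u : ℝ) (h1 : s ≤ t) (h2 : t ≤ u) (h3 : u ≤ s + π) :
    sin (u - t) * g S i p s + sin (t - s) * g S i p u ≤ sin (u - s) * g S i p t := by
  have h := S.conv i s t u h1 h2 h3
  simp only [g]
  have e1 : sin (u - t) * sin s + sin (t - s) * sin u = sin (u - s) * sin t := by
    rw [sin_sub, sin_sub, sin_sub]; ring
  have e2 : sin (u - t) * cos s + sin (t - s) * cos u = sin (u - s) * cos t := by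
    rw [sin_sub, sin_sub, sin_sub]; ring
  nlinarith [h, congrArg (fun z => p.1 * z) e1, congrArg (fun z => p.2 * z) e2]

lemma g_mid {i : ι} {p : ℝ × ℝ} {s t u m : ℝ} (h1 : s ≤ t) (h2 : t ≤ u) (h3 : u ≤ s + π)
    (hm : 0 < m) (hs : m ≤ g S i p s) (hu : m ≤ g S i p u) : m ≤ g S i p t := by
  rcases eq_or_lt_of_le h1 with rfl | h1'
  · exact hs
  rcases eq_or_lt_of_le h3 with rfl | h3'
  · have := g_opp S i p s
    linarith
  have hc := g_conv S i p s t u h1 h2 h3
  have p1 : 0 < sin (u - s) := sin_pos_of_pos_of_lt_pi (by linarith) (by linarith)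
  have p2 : 0 ≤ sin (u - t) := sin_nonneg_of_nonneg_of_le_pi (by linarith) (by linarith)
  have p3 : 0 ≤ sin (t - s) := sin_nonneg_of_nonneg_of_le_pi (by linarith) (by linarith)
  have e : sin (u - s) ≤ sin (u - t) + sin (t - s) := by
    have : u - s = (u - t) + (t - s) := by ring
    rw [this, sin_add]
    have c1 := cos_le_one (t - s)
    have c2 := cos_le_one (u - t)
    nlinarith
  have : m * sin (u - s) ≤ sin (u - s) * g S i p t := by
    calc m * sin (u - s) ≤ m * (sin (u - t) + sin (t - s)) := by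
          exact mul_le_mul_of_nonneg_left e hm.le
      _ = sin (u - t) * m + sin (t - s) * m := by ring
      _ ≤ sin (u - t) * g S i p s + sin (t - s) * g S i p u :=
          add_le_add (mul_le_mul_of_nonneg_left hs p2) (mul_le_mul_of_nonneg_left hu p3)
      _ ≤ _ := hc
  rw [mul_comm] at this
  exact le_of_mul_le_mul_left this p1

/-- Soft weight of the sets in the wedge from `t` to `s + π`. -/
noncomputable def W (p : ℝ × ℝ) (s t : ℝ) : ℝ :=
  ∑ i, max 0 (min (g S i p s) (g S i p (max s (min t (s + π)))))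

lemma W_cont : Continuous fun x : (ℝ × ℝ) × ℝ × ℝ => W S x.1 x.2.1 x.2.2 := by
  unfold W
  refine continuous_finsetSum _ fun i _ => ?_
  have h1 : Continuous fun x : (ℝ × ℝ) × ℝ × ℝ => g S i x.1 x.2.1 :=
    (g_cont S i).comp (by fun_prop : Continuous fun x : (ℝ × ℝ) × ℝ × ℝ => (x.1, x.2.1))
  have h2 : Continuous fun x : (ℝ × ℝ) × ℝ × ℝ =>
      g S i x.1 (max x.2.1 (min x.2.2 (x.2.1 + π))) :=
    (g_cont S i).comp (by fun_prop :
      Continuous fun x : (ℝ × ℝ) × ℝ × ℝ => (x.1, max x.2.1 (min x.2.2 (x.2.1 + π))))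
  exact continuous_const.max (h1.min h2)

lemma W_nonneg (p : ℝ × ℝ) (s t : ℝ) : 0 ≤ W S p s t :=
  Finset.sum_nonneg fun _ _ => le_max_left _ _

lemma clamp_mem (s t : ℝ) : s ≤ max s (min t (s + π)) ∧ max s (min t (s + π)) ≤ s + π :=
  ⟨le_max_left _ _, max_le (by linarith [pi_pos]) (min_le_right _ _)⟩

lemma clamp_eq {s t : ℝ} (h1 : s ≤ t) (h2 : t ≤ s + π) : max s (min t (s + π)) = t := by
  rw [min_eq_left h2, max_eq_right h1]

lemma W_anti (p : ℝ × ℝ) (s : ℝ) : Antitone (W S p s) := by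
  intro t u htu
  unfold W
  refine Finset.sum_le_sum fun i _ => ?_
  have hc : max s (min t (s + π)) ≤ max s (min u (s + π)) :=
    max_le_max le_rfl (min_le_min htu le_rfl)
  rcases le_or_gt (min (g S i p s) (g S i p (max s (min u (s + π))))) 0 with h | h
  · rw [max_eq_left h]
    exact le_max_left _ _
  · refine max_le (le_max_left _ _) (le_max_of_le_right (le_min (min_le_left _ _) ?_))
    exact g_mid S (clamp_mem s t).1 hc (clamp_mem s u).2 h (min_le_left _ _) (min_le_right _ _)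

lemma W_top {p : ℝ × ℝ} {s t : ℝ} (h : s + π ≤ t) : W S p s t = 0 := by
  unfold W
  refine Finset.sum_eq_zero fun i _ => ?_
  have e : max s (min t (s + π)) = s + π := by
    rw [min_eq_right h]
    exact max_eq_right (by linarith [pi_pos])
  rw [e]
  refine max_eq_left ?_
  have := g_opp S i p s
  rcases le_or_gt (g S i p s) 0 with h1 | h1
  · exact (min_le_left _ _).trans h1
  · exact (min_le_right _ _).trans (by linarith)

lemma W_per (p : ℝ × ℝ) (s t : ℝ) : W S p (s + 2 * π) (t + 2 * π) = W S p s t := by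
  unfold W
  refine Finset.sum_congr rfl fun i _ => ?_
  have e : max (s + 2 * π) (min (t + 2 * π) (s + 2 * π + π)) =
      max s (min t (s + π)) + 2 * π := by
    rw [show s + 2 * π + π = (s + π) + 2 * π by ring, min_add_add_right, max_add_add_right]
  rw [e, g_per, g_per]

lemma W_single (i : ι) {p : ℝ × ℝ} {s t : ℝ} (h1 : s ≤ t) (h2 : t ≤ s + π) :
    min (g S i p s) (g S i p t) ≤ W S p s t := by
  have h := Finset.single_le_sum (s := Finset.univ)
    (f := fun i => max 0 (min (g S i p s) (g S i p (max s (min t (s + π))))))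
    (fun i _ => le_max_left _ _) (Finset.mem_univ i)
  simp only [clamp_eq h1 h2] at h
  refine (le_max_right _ _).trans (h.trans_eq ?_)
  unfold W
  simp only [clamp_eq h1 h2]

lemma W_self (p : ℝ × ℝ) (s : ℝ) : W S p s s = ∑ i, max 0 (g S i p s) := by
  unfold W
  refine Finset.sum_congr rfl fun i _ => ?_
  rw [clamp_eq le_rfl (by linarith [pi_pos]), min_self]

lemma W_zero {p : ℝ × ℝ} {s t : ℝ} (h1 : s ≤ t) (h2 : t ≤ s + π) (h : ∀ i, g S i p t ≤ 0) :
    W S p s t = 0 := by
  unfold W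
  refine Finset.sum_eq_zero fun i _ => ?_
  rw [clamp_eq h1 h2]
  exact max_eq_left ((min_le_right _ _).trans (h i))

lemma W_pos_exists {p : ℝ × ℝ} {s t : ℝ} (h1 : s ≤ t) (h2 : t ≤ s + π) (h : 0 < W S p s t) :
    ∃ i, 0 < g S i p s ∧ 0 < g S i p t := by
  by_contra hno
  push Not at hno
  have : W S p s t = 0 := by
    unfold W
    refine Finset.sum_eq_zero fun i _ => ?_
    rw [clamp_eq h1 h2]
    refine max_eq_left ?_
    rcases le_or_gt (g S i p s) 0 with h3 | h3
    · exact (min_le_left _ _).trans h3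
    · exact (min_le_right _ _).trans (hno i h3)
  linarith

/-- `F` is a root function at the level `κ`. -/
def IsFar (κ : ℝ) (F : (ℝ × ℝ) × ℝ → ℝ) : Prop :=
  Continuous F ∧ ∀ p s, W S p s (F (p, s)) = κ * (1 + F (p, s) - s)

lemma exists_far {κ : ℝ} (hκ : 0 < κ) : ∃ F, IsFar S κ F := by
  obtain ⟨F, hF, hF2⟩ := exists_root
    (fun x : ((ℝ × ℝ) × ℝ) × ℝ => W S x.1.1 x.1.2 x.2 - κ * (1 + x.2 - x.1.2))
    (by
      have h1 : Continuous fun x : ((ℝ × ℝ) × ℝ) × ℝ => W S x.1.1 x.1.2 x.2 :=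
        (W_cont S).comp (by fun_prop :
          Continuous fun x : ((ℝ × ℝ) × ℝ) × ℝ => (x.1.1, x.1.2, x.2))
      fun_prop)
    (by
      intro x t u htu
      have := W_anti S x.1 x.2 htu.le
      simp only
      nlinarith)
    (by
      intro x
      have hc : Continuous fun t : ℝ => W S x.1 x.2 t - κ * (1 + t - x.2) := by
        have h1 : Continuous fun t : ℝ => W S x.1 x.2 t :=
          (W_cont S).comp (by fun_prop : Continuous fun t : ℝ => (x.1, x.2, t))
        fun_prop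
      have h0 : (0 : ℝ) ∈ Icc (W S x.1 x.2 (x.2 + π) - κ * (1 + (x.2 + π) - x.2))
          (W S x.1 x.2 (x.2 - 1) - κ * (1 + (x.2 - 1) - x.2)) := by
        constructor
        · rw [W_top S le_rfl]
          nlinarith [pi_pos]
        · have := W_nonneg S x.1 x.2 (x.2 - 1)
          have e : κ * (1 + (x.2 - 1) - x.2) = 0 := by ring
          linarith
      obtain ⟨t, -, ht⟩ := intermediate_value_Icc' (by linarith [pi_pos] : x.2 - 1 ≤ x.2 + π)
        hc.continuousOn h0
      exact ⟨t, ht⟩)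
  exact ⟨F, hF, fun p s => by have := hF2 (p, s); simp only at this; linarith⟩

variable {S} {κ : ℝ} {F : (ℝ × ℝ) × ℝ → ℝ}

lemma far_lower (hκ : 0 < κ) (hF : IsFar S κ F) {p : ℝ × ℝ} {s t : ℝ}
    (h : κ * (1 + t - s) ≤ W S p s t) : t ≤ F (p, s) := by
  by_contra hc
  push Not at hc
  have h1 := W_anti S p s hc.le
  have h2 := hF.2 p s
  nlinarith

lemma far_upper (hκ : 0 < κ) (hF : IsFar S κ F) {p : ℝ × ℝ} {s t : ℝ}
    (h : W S p s t ≤ κ * (1 + t - s)) : F (p, s) ≤ t := by
  by_contra hc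
  push Not at hc
  have h1 := W_anti S p s hc.le
  have h2 := hF.2 p s
  nlinarith

lemma far_upper' (hκ : 0 < κ) (hF : IsFar S κ F) {p : ℝ × ℝ} {s t : ℝ}
    (h : W S p s t < κ * (1 + t - s)) : F (p, s) < t := by
  by_contra hc
  push Not at hc
  have h1 := W_anti S p s hc
  have h2 := hF.2 p s
  nlinarith

lemma far_eq (hκ : 0 < κ) (hF : IsFar S κ F) {p : ℝ × ℝ} {s t : ℝ}
    (h : W S p s t = κ * (1 + t - s)) : F (p, s) = t :=
  le_antisymm (far_upper hκ hF h.le) (far_lower hκ hF h.ge)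

lemma far_lt (hκ : 0 < κ) (hF : IsFar S κ F) (p : ℝ × ℝ) (s : ℝ) : F (p, s) < s + π := by
  refine far_upper' hκ hF ?_
  rw [W_top S le_rfl]
  have := pi_pos
  nlinarith

lemma far_ge (hκ : 0 < κ) (hF : IsFar S κ F) (p : ℝ × ℝ) (s : ℝ) : s - 1 ≤ F (p, s) := by
  refine far_lower hκ hF ?_
  have e : κ * (1 + (s - 1) - s) = 0 := by ring
  rw [e]
  exact W_nonneg S _ _ _

lemma far_per (hκ : 0 < κ) (hF : IsFar S κ F) (p : ℝ × ℝ) (s : ℝ) :
    F (p, s + 2 * π) = F (p, s) + 2 * π := by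
  refine far_eq hκ hF ?_
  rw [W_per, hF.2 p s]
  ring

end Pool.Agent.RK68
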