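import Pool.Agent.RK68.Abs
import Pool.Agent.OPT22.Geom

/-!
# The limit, and convex sets
-/

namespace Pool.Agent.RK68

open Real Set Filter

section lim

variable {ι : Type} [Fintype ι] {S : Sys ι}

lemma sys_bound (S : Sys ι) : ∃ R, ∀ i t, |S.h i t| ≤ R := by
  have h1 : ∀ i, ∃ R, ∀ t, |S.h i t| ≤ R := by
    intro i
    obtain ⟨R, hR⟩ := (isCompact_Icc (a := (0 : ℝ)) (b := 2 * π)).exists_bound_of_continuousOn
      (S.cont i).continuousOn
    refine ⟨R, fun t => ?_⟩
    have hper : Function.Periodic (S.h i) (2 * π) := S.per i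
    obtain ⟨t', ht', he⟩ := hper.exists_mem_Ico₀ (by positivity) t
    rw [he]
    exact hR t' ⟨ht'.1, ht'.2.le⟩
  choose R hR using h1
  refine ⟨∑ i, |R i|, fun i t => (hR i t).trans ((le_abs_self _).trans ?_)⟩
  exact Finset.single_le_sum (f := fun i => |R i|) (fun i _ => abs_nonneg _)
    (Finset.mem_univ i)

open Classical in
/-- A line meeting two thirds of the sets. -/
theorem two_thirds (hT : T6 S) : ∃ t c : ℝ, 2 * Fintype.card ι ≤
    3 * (Finset.univ.filter fun i => S.h i t ≤ c ∧ S.h i (t + π) ≤ -c).card := by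
  rcases isEmpty_or_nonempty ι with hempty | hne
  · exact ⟨0, 0, by simp [Fintype.card_eq_zero]⟩
  have hpi := pi_pos
  obtain ⟨R, hR⟩ := sys_bound S
  have hn : 0 < Fintype.card ι := Fintype.card_pos
  set K : Set (ℝ × ℝ) := Icc 0 (2 * π) ×ˢ Icc (-(R + 1)) (R + 1) with hK
  have hKc : IsCompact K := isCompact_Icc.prod isCompact_Icc
  have hseq : ∀ m : ℕ, ∃ z ∈ K, 2 * Fintype.card ι ≤
      3 * (Finset.univ.filter fun i => S.h i z.1 ≤ z.2 + 1 / ((m : ℝ) + 1) ∧
        S.h i (z.1 + π) ≤ -z.2 + 1 / ((m : ℝ) + 1)).card := by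
    intro m
    have hη : 0 < 1 / ((m : ℝ) + 1) := by positivity
    have hη1 : 1 / ((m : ℝ) + 1) ≤ 1 := by
      rw [div_le_one (by positivity)]
      have : (0 : ℝ) ≤ m := Nat.cast_nonneg _
      linarith
    obtain ⟨p, t, hpt⟩ := two_thirds_soft hT hη
    have hper : Function.Periodic (fun t : ℝ => ((fun i => S.h i t), (fun i => S.h i (t + π)),
        sin t, cos t)) (2 * π) := by
      intro t
      have e1 : ∀ i, S.h i (t + 2 * π + π) = S.h i (t + π) := by
        intro i
        rw [show t + 2 * π + π = t + π + 2 * π by ring, S.per]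
      simp only [S.per, e1, sin_add_two_pi, cos_add_two_pi]
    obtain ⟨t', ht', he⟩ := hper.exists_mem_Ico₀ (by positivity) t
    simp only [Prod.mk.injEq] at he
    obtain ⟨he1, he2, he3, he4⟩ := he
    have hiff : ∀ i, Close S (1 / ((m : ℝ) + 1)) p t i ↔
        (S.h i t' ≤ (-p.1 * sin t' + p.2 * cos t') + 1 / ((m : ℝ) + 1) ∧
        S.h i (t' + π) ≤ -(-p.1 * sin t' + p.2 * cos t') + 1 / ((m : ℝ) + 1)) := by
      intro i
      have f1 : S.h i t = S.h i t' := congr_fun he1 i
      have f2 : S.h i (t + π) = S.h i (t' + π) := congr_fun he2 i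
      unfold Close g
      rw [sin_add_pi, cos_add_pi, f1, f2, he3, he4]
      constructor
      · rintro ⟨a, b⟩
        exact ⟨by linarith, by linarith⟩
      · rintro ⟨a, b⟩
        exact ⟨by linarith, by linarith⟩
    simp only [hiff] at hpt
    refine ⟨(t', -p.1 * sin t' + p.2 * cos t'), ⟨⟨ht'.1, ht'.2.le⟩, ?_⟩, hpt⟩
    have hpos : 0 < (Finset.univ.filter fun i =>
        (S.h i t' ≤ (-p.1 * sin t' + p.2 * cos t') + 1 / ((m : ℝ) + 1) ∧
        S.h i (t' + π) ≤ -(-p.1 * sin t' + p.2 * cos t') + 1 / ((m : ℝ) + 1))).card := by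
      omega
    obtain ⟨i, hi⟩ := Finset.card_pos.mp hpos
    rw [Finset.mem_filter] at hi
    have b1 := abs_le.mp (hR i t')
    have b2 := abs_le.mp (hR i (t' + π))
    constructor
    · simp only
      linarith [hi.2.1]
    · simp only
      linarith [hi.2.2]
  choose z hzK hz using hseq
  obtain ⟨y, hyK, φ, hφ, hlim⟩ := hKc.tendsto_subseq hzK
  refine ⟨y.1, y.2, ?_⟩
  have hη0 : Tendsto (fun m : ℕ => 1 / ((φ m : ℝ) + 1)) atTop (nhds 0) :=
    tendsto_one_div_add_atTop_nhds_zero_nat.comp hφ.tendsto_atTop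
  have hev : ∀ᶠ m in atTop, ∀ i, (S.h i (z (φ m)).1 ≤ (z (φ m)).2 + 1 / ((φ m : ℝ) + 1) ∧
        S.h i ((z (φ m)).1 + π) ≤ -(z (φ m)).2 + 1 / ((φ m : ℝ) + 1)) →
        (S.h i y.1 ≤ y.2 ∧ S.h i (y.1 + π) ≤ -y.2) := by
    rw [eventually_all]
    intro i
    by_cases hi : S.h i y.1 ≤ y.2 ∧ S.h i (y.1 + π) ≤ -y.2
    · exact Eventually.of_forall fun m _ => hi
    have c1 : Tendsto (fun m => (z (φ m)).2 + 1 / ((φ m : ℝ) + 1) - S.h i (z (φ m)).1) atTop
        (nhds (y.2 + 0 - S.h i y.1)) := by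
      refine ((((continuous_snd.tendsto y).comp hlim)).add hη0).sub ?_
      exact (((S.cont i).comp continuous_fst).tendsto y).comp hlim
    have c2 : Tendsto (fun m => -(z (φ m)).2 + 1 / ((φ m : ℝ) + 1) -
        S.h i ((z (φ m)).1 + π)) atTop (nhds (-y.2 + 0 - S.h i (y.1 + π))) := by
      refine ((((continuous_snd.neg.tendsto y).comp hlim)).add hη0).sub ?_
      exact (((S.cont i).comp (continuous_fst.add continuous_const)).tendsto y).comp hlim
    rcases not_and_or.mp hi with h | h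
    · push Not at h
      have := c1.eventually (gt_mem_nhds (show y.2 + 0 - S.h i y.1 < 0 by linarith))
      filter_upwards [this] with m hm hcl
      exact absurd hcl.1 (by linarith)
    · push Not at h
      have := c2.eventually (gt_mem_nhds (show -y.2 + 0 - S.h i (y.1 + π) < 0 by linarith))
      filter_upwards [this] with m hm hcl
      exact absurd hcl.2 (by linarith)
  obtain ⟨m, hm⟩ := hev.exists
  refine (hz (φ m)).trans (Nat.mul_le_mul_left 3 (Finset.card_le_card ?_))
  intro i hi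
  rw [Finset.mem_filter] at hi ⊢
  exact ⟨hi.1, hm i hi.2⟩

end lim

/-! ## Convex sets -/

/-- The coordinate in the direction of the normal. -/
noncomputable def nf (t : ℝ) (x : ℝ × ℝ) : ℝ := -x.1 * sin t + x.2 * cos t

lemma nf_cont : Continuous fun z : ℝ × (ℝ × ℝ) => nf z.1 z.2 := by
  unfold nf
  fun_prop

lemma nf_cont' (t : ℝ) : Continuous (nf t) := by
  unfold nf
  fun_prop

/-- The minimum of the coordinate on the set. -/
noncomputable def hS (A : Set (ℝ × ℝ)) (t : ℝ) : ℝ := sInf (nf t '' A)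

lemma hS_le {A : Set (ℝ × ℝ)} (hA : IsCompact A) (t : ℝ) {x : ℝ × ℝ} (hx : x ∈ A) :
    hS A t ≤ nf t x :=
  csInf_le (hA.image (nf_cont' t)).bddBelow (mem_image_of_mem _ hx)

lemma hS_attained {A : Set (ℝ × ℝ)} (hA : IsCompact A) (hne : A.Nonempty) (t : ℝ) :
    ∃ x ∈ A, nf t x = hS A t := by
  have := (hA.image (nf_cont' t)).sInf_mem (hne.image _)
  obtain ⟨x, hx, he⟩ := this
  exact ⟨x, hx, he⟩

lemma hS_cont {A : Set (ℝ × ℝ)} (hA : IsCompact A) : Continuous (hS A) := by
  unfold hS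
  exact hA.continuous_sInf nf_cont

lemma nf_per (t : ℝ) (x : ℝ × ℝ) : nf (t + 2 * π) x = nf t x := by
  simp only [nf, sin_add_two_pi, cos_add_two_pi]

lemma nf_pi (t : ℝ) (x : ℝ × ℝ) : nf (t + π) x = - nf t x := by
  simp only [nf, sin_add_pi, cos_add_pi]
  ring

/-- The system of a family of nonempty compact sets. -/
noncomputable def sysOf {ι : Type} [Fintype ι] (A : ι → Set (ℝ × ℝ))
    (hA : ∀ i, IsCompact (A i)) (hne : ∀ i, (A i).Nonempty) : Sys ι where
  h i t := hS (A i) t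
  cont i := hS_cont (hA i)
  per i t := by
    have : nf (t + 2 * π) = nf t := funext fun x => nf_per t x
    simp only [hS, this]
  opp i t := by
    obtain ⟨x, hx⟩ := hne i
    have h1 := hS_le (hA i) t hx
    have h2 := hS_le (hA i) (t + π) hx
    rw [nf_pi] at h2
    linarith
  conv i s t u hst htu hus := by
    obtain ⟨x, hx, he⟩ := hS_attained (hA i) (hne i) t
    rw [← he]
    have p2 : 0 ≤ sin (u - t) := sin_nonneg_of_nonneg_of_le_pi (by linarith) (by linarith)
    have p3 : 0 ≤ sin (t - s) := sin_nonneg_of_nonneg_of_le_pi (by linarith) (by linarith)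
    have h1 := mul_le_mul_of_nonneg_left (hS_le (hA i) s hx) p2
    have h2 := mul_le_mul_of_nonneg_left (hS_le (hA i) u hx) p3
    have e : sin (u - t) * nf s x + sin (t - s) * nf u x = sin (u - s) * nf t x := by
      simp only [nf, sin_sub]
      ring
    linarith

lemma meets_iff {A : Set (ℝ × ℝ)} (hA : IsCompact A) (hco : Convex ℝ A) (hne : A.Nonempty)
    (t c : ℝ) : Pool.Agent.OPT22.Meets (t + π / 2) c A ↔
      hS A t ≤ c ∧ hS A (t + π) ≤ -c := by
  have e : ∀ x : ℝ × ℝ, x.1 * cos (t + π / 2) + x.2 * sin (t + π / 2) = nf t x := by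
    intro x
    rw [cos_add_pi_div_two, sin_add_pi_div_two]
    unfold nf
    ring
  constructor
  · rintro ⟨x, hx, hxc⟩
    rw [e] at hxc
    have h1 := hS_le hA t hx
    have h2 := hS_le hA (t + π) hx
    rw [nf_pi] at h2
    exact ⟨by linarith, by linarith⟩
  · rintro ⟨h1, h2⟩
    obtain ⟨x, hx, hxe⟩ := hS_attained hA hne t
    obtain ⟨y, hy, hye⟩ := hS_attained hA hne (t + π)
    rw [nf_pi] at hye
    have hconn : IsPreconnected A := hco.isPreconnected
    have himg := hconn.intermediate_value hx hy (nf_cont' t).continuousOn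
    obtain ⟨w, hw, hwe⟩ := himg (show c ∈ Icc (nf t x) (nf t y) from ⟨by linarith, by linarith⟩)
    exact ⟨w, hw, by rw [e]; exact hwe⟩

end Pool.Agent.RK68
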