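import Pool.Agent.RK68.Core

/-!
# The topological part: a pencil with three balanced steps
-/

namespace Pool.Agent.RK68

open Real Set

variable {ι : Type} [Fintype ι] {S : Sys ι} {κ : ℝ} {F : (ℝ × ℝ) × ℝ → ℝ}

/-- The point with coordinate `x` on the line with direction `t` and offset `c`. -/
noncomputable def pos (t c x : ℝ) : ℝ × ℝ := (-c * sin t + x * cos t, c * cos t + x * sin t)

lemma g_pos (i : ι) (t c x s : ℝ) :
    g S i (pos t c x) s = S.h i s - c * cos (s - t) + x * sin (s - t) := by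
  simp only [g, pos, cos_sub, sin_sub]
  ring

lemma pos_cont : Continuous fun x : ℝ × ℝ × ℝ => pos x.1 x.2.1 x.2.2 := by
  unfold pos
  fun_prop

lemma pos_per (t c x : ℝ) : pos (t + 2 * π) c x = pos t c x := by
  simp only [pos, sin_add_two_pi, cos_add_two_pi]

lemma pos_rev (t c x : ℝ) : pos (t + π) (-c) (-x) = pos t c x := by
  simp only [pos, sin_add_pi, cos_add_pi]
  ext <;> simp

/-- The first defect. -/
noncomputable def D (F : (ℝ × ℝ) × ℝ → ℝ) (p : ℝ × ℝ) (t : ℝ) : ℝ :=
  F (p, t) - F (p, t + π) + π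

lemma D_cont (hF : Continuous F) : Continuous fun x : (ℝ × ℝ) × ℝ => D F x.1 x.2 := by
  unfold D
  fun_prop

lemma D_rev (hκ : 0 < κ) (hF : IsFar S κ F) (p : ℝ × ℝ) (t : ℝ) : D F p (t + π) = - D F p t := by
  unfold D
  have e : t + π + π = t + 2 * π := by ring
  rw [e, far_per hκ hF]
  ring

lemma D_per (hκ : 0 < κ) (hF : IsFar S κ F) (p : ℝ × ℝ) (t : ℝ) :
    D F p (t + 2 * π) = D F p t := by
  have e : t + 2 * π = t + π + π := by ring
  rw [e, D_rev hκ hF, D_rev hκ hF, neg_neg]

lemma D_abs (hκ : 0 < κ) (hF : IsFar S κ F) (p : ℝ × ℝ) (t : ℝ) : |D F p t| ≤ π + 1 := by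
  unfold D
  have h1 := far_lt hκ hF p t
  have h2 := far_ge hκ hF p t
  have h3 := far_lt hκ hF p (t + π)
  have h4 := far_ge hκ hF p (t + π)
  rw [abs_le]
  constructor <;> linarith

/-- Moving forward on the line increases the far direction. -/
lemma far_mono (hκ : 0 < κ) (hF : IsFar S κ F) (t c : ℝ) {x y : ℝ} (h : x ≤ y) :
    F (pos t c x, t) ≤ F (pos t c y, t) := by
  refine far_lower hκ hF ?_
  rw [← hF.2]
  unfold W
  refine Finset.sum_le_sum fun i _ => max_le_max le_rfl (min_le_min ?_ ?_)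
  · rw [g_pos, g_pos, sub_self, sin_zero]
    simp
  · have h1 := clamp_mem t (F (pos t c x, t))
    rw [g_pos, g_pos]
    have h2 : 0 ≤ sin (max t (min (F (pos t c x, t)) (t + π)) - t) :=
      sin_nonneg_of_nonneg_of_le_pi (by linarith) (by linarith)
    nlinarith

/-- Moving forward on the line decreases the far direction of the reversed line. -/
lemma far_anti (hκ : 0 < κ) (hF : IsFar S κ F) (t c : ℝ) {x y : ℝ} (h : x ≤ y) :
    F (pos t c y, t + π) ≤ F (pos t c x, t + π) := by
  have h1 := far_mono hκ hF (t + π) (-c) (neg_le_neg h)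
  rw [pos_rev, pos_rev] at h1
  exact h1

lemma D_mono (hκ : 0 < κ) (hF : IsFar S κ F) (t c : ℝ) {x y : ℝ} (h : x ≤ y) :
    D F (pos t c x) t ≤ D F (pos t c y) t := by
  unfold D
  have h1 := far_mono hκ hF t c h
  have h2 := far_anti hκ hF t c h
  linarith

/-- The position on the line at which the first defect is balanced. -/
lemma exists_X (hκ : 0 < κ) (hF : IsFar S κ F) {d : ℝ} (hd : 0 < d) :
    ∃ X : ℝ × ℝ → ℝ, Continuous X ∧
      ∀ t c, D F (pos t c (X (t, c))) t = - (d * X (t, c)) := by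
  have hpc : Continuous fun x : (ℝ × ℝ) × ℝ => D F (pos x.1.1 x.1.2 x.2) x.1.1 :=
    (D_cont hF.1).comp ((pos_cont.comp (by fun_prop :
      Continuous fun x : (ℝ × ℝ) × ℝ => (x.1.1, x.1.2, x.2))).prodMk (by fun_prop))
  obtain ⟨X, hX, hX2⟩ := exists_root
    (fun x : (ℝ × ℝ) × ℝ => - D F (pos x.1.1 x.1.2 x.2) x.1.1 - d * x.2)
    (by fun_prop)
    (by
      intro x a b hab
      have := D_mono hκ hF x.1 x.2 hab.le
      simp only
      nlinarith)
    (by
      intro x
      have hc : Continuous fun z : ℝ => - D F (pos x.1 x.2 z) x.1 - d * z := by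
        have h1 : Continuous fun z : ℝ => D F (pos x.1 x.2 z) x.1 :=
          hpc.comp (by fun_prop : Continuous fun z : ℝ => ((x.1, x.2), z))
        fun_prop
      have hpi := pi_pos
      have hq : d * ((π + 1) / d) = π + 1 := by field_simp
      have h0 : (0 : ℝ) ∈ Icc (- D F (pos x.1 x.2 ((π + 1) / d)) x.1 - d * ((π + 1) / d))
          (- D F (pos x.1 x.2 (-((π + 1) / d))) x.1 - d * (-((π + 1) / d))) := by
        have a1 := abs_le.mp (D_abs hκ hF (pos x.1 x.2 ((π + 1) / d)) x.1)
        have a2 := abs_le.mp (D_abs hκ hF (pos x.1 x.2 (-((π + 1) / d))) x.1)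
        constructor
        · rw [hq]; linarith [a1.1]
        · rw [mul_neg, hq]; linarith [a2.2]
      have hle : -((π + 1) / d) ≤ (π + 1) / d := by
        have : 0 < (π + 1) / d := by positivity
        linarith
      obtain ⟨z, -, hz⟩ := intermediate_value_Icc' hle hc.continuousOn h0
      exact ⟨z, hz⟩)
  refine ⟨X, hX, fun t c => ?_⟩
  have := hX2 (t, c)
  simp only at this
  linarith

/-- Uniqueness of the balanced position. -/
lemma X_unique (hκ : 0 < κ) (hF : IsFar S κ F) {d : ℝ} (hd : 0 < d) {t c x y : ℝ}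
    (hx : D F (pos t c x) t = - (d * x)) (hy : D F (pos t c y) t = - (d * y)) : x = y := by
  rcases lt_trichotomy x y with h | h | h
  · have := D_mono hκ hF t c h.le
    nlinarith
  · exact h
  · have := D_mono hκ hF t c h.le
    nlinarith

/-- The second direction. -/
noncomputable def a1 (F : (ℝ × ℝ) × ℝ → ℝ) (p : ℝ × ℝ) (t : ℝ) : ℝ :=
  max (F (p, t)) (F (p, t + π) - π)

/-- The second defect. -/
noncomputable def w1 (F : (ℝ × ℝ) × ℝ → ℝ) (p : ℝ × ℝ) (t : ℝ) : ℝ :=
  F (p, a1 F p t) - F (p, a1 F p t + π) + π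

/-- The third defect. -/
noncomputable def w2 (F : (ℝ × ℝ) × ℝ → ℝ) (p : ℝ × ℝ) (t : ℝ) : ℝ :=
  F (p, F (p, a1 F p t)) - F (p, F (p, a1 F p t + π)) + π

lemma w1_cont (hF : Continuous F) : Continuous fun x : (ℝ × ℝ) × ℝ => w1 F x.1 x.2 := by
  unfold w1 a1
  fun_prop

lemma w2_cont (hF : Continuous F) : Continuous fun x : (ℝ × ℝ) × ℝ => w2 F x.1 x.2 := by
  unfold w2 a1
  fun_prop

lemma a1_rev (hκ : 0 < κ) (hF : IsFar S κ F) (p : ℝ × ℝ) (t : ℝ) :
    a1 F p (t + π) = a1 F p t + π := by
  unfold a1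
  have e : t + π + π = t + 2 * π := by ring
  rw [e, far_per hκ hF, max_comm]
  have e2 : F (p, t) + 2 * π - π = F (p, t) + π := by ring
  have e3 : F (p, t + π) = (F (p, t + π) - π) + π := by ring
  rw [e2]
  conv_lhs => rw [e3]
  rw [max_add_add_right]

lemma w1_rev (hκ : 0 < κ) (hF : IsFar S κ F) (p : ℝ × ℝ) (t : ℝ) :
    w1 F p (t + π) = - w1 F p t := by
  unfold w1
  rw [a1_rev hκ hF]
  have e : a1 F p t + π + π = a1 F p t + 2 * π := by ring
  rw [e, far_per hκ hF]
  ring

lemma w2_rev (hκ : 0 < κ) (hF : IsFar S κ F) (p : ℝ × ℝ) (t : ℝ) :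
    w2 F p (t + π) = - w2 F p t := by
  unfold w2
  rw [a1_rev hκ hF]
  have e : a1 F p t + π + π = a1 F p t + 2 * π := by ring
  rw [e, far_per hκ hF, far_per hκ hF]
  ring

lemma w1_per (hκ : 0 < κ) (hF : IsFar S κ F) (p : ℝ × ℝ) (t : ℝ) :
    w1 F p (t + 2 * π) = w1 F p t := by
  have e : t + 2 * π = t + π + π := by ring
  rw [e, w1_rev hκ hF, w1_rev hκ hF, neg_neg]

lemma w2_per (hκ : 0 < κ) (hF : IsFar S κ F) (p : ℝ × ℝ) (t : ℝ) :
    w2 F p (t + 2 * π) = w2 F p t := by
  have e : t + 2 * π = t + π + π := by ring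
  rw [e, w2_rev hκ hF, w2_rev hκ hF, neg_neg]

/-- Every line misses a lot. -/
def Star (S : Sys ι) (η : ℝ) : Prop :=
  ∀ (p : ℝ × ℝ) (t : ℝ), η < W S p t t + W S p (t + π) (t + π)

lemma a1_ge (hκ : 0 < κ) (hF : IsFar S κ F) {η : ℝ} (hst : Star S η) (h2 : 2 * κ ≤ η)
    (p : ℝ × ℝ) (t : ℝ) : t ≤ a1 F p t := by
  have h := hst p t
  rcases le_or_gt κ (W S p t t) with h1 | h1
  · refine le_max_of_le_left (far_lower hκ hF ?_)
    rw [show 1 + t - t = 1 by ring, mul_one]
    exact h1
  · refine le_max_of_le_right ?_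
    have : t + π ≤ F (p, t + π) := by
      refine far_lower hκ hF ?_
      rw [show 1 + (t + π) - (t + π) = 1 by ring, mul_one]
      linarith
    linarith

/-- The sign lemma. -/
lemma sign (hκ : 0 < κ) (hF : IsFar S κ F) {η : ℝ} (hst : Star S η) (hη : 0 < η)
    (hκ1 : κ * (1 + π) ≤ min 1 η / (2 * (Fintype.card ι + 1)))
    {p : ℝ × ℝ} {t : ℝ} (hg : ∀ i, 1 ≤ g S i p (t + π / 2)) (hD : D F p t < 0) :
    0 < w1 F p t := by
  have hpi := pi_pos
  have hn0 : (0 : ℝ) ≤ Fintype.card ι := Nat.cast_nonneg _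
  have hm1 : min 1 η / (2 * (Fintype.card ι + 1)) ≤ min 1 η / 2 := by
    have h0 : 0 < min 1 η := lt_min one_pos hη
    apply div_le_div_of_nonneg_left h0.le (by norm_num)
    linarith
  have hk1 : κ * (1 + π) ≤ 1 / 2 := hκ1.trans (hm1.trans (by
    have := min_le_left 1 η
    linarith))
  have hk2 : κ * (1 + π) ≤ η / 2 := hκ1.trans (hm1.trans (by
    have := min_le_right 1 η
    linarith))
  have hk3 : κ * (1 + π / 2) ≤ κ * (1 + π) := by nlinarith
  have hkk : κ ≤ κ * (1 + π) := by nlinarith
  -- the sets seen from behind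
  have hgn : ∀ i, g S i p (t + 3 * π / 2) < 0 := by
    intro i
    have h1 := g_opp S i p (t + π / 2)
    have e : t + π / 2 + π = t + 3 * π / 2 := by ring
    rw [e] at h1
    linarith [hg i]
  -- the second direction
  have ha : a1 F p t = F (p, t + π) - π := by
    unfold a1
    apply max_eq_right
    unfold D at hD
    linarith
  have ha0 : t ≤ a1 F p t := a1_ge hκ hF hst (by linarith) p t
  have ha1 : a1 F p t < t + π / 2 := by
    have : F (p, t + π) < t + 3 * π / 2 := by
      refine far_upper' hκ hF ?_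
      rw [W_zero S (by linarith) (by linarith) (fun i => (hgn i).le)]
      have : 0 < 1 + (t + 3 * π / 2) - (t + π) := by linarith
      positivity
    rw [ha]
    linarith
  set a := a1 F p t with haeq
  -- the reversed second line has few sets on its left
  have hWs : W S p (t + π) (a + π) = κ * (1 + a - t) := by
    have e : a + π = F (p, t + π) := by rw [ha]; ring
    rw [e, hF.2, ← e]
    ring
  have hWs2 : W S p (t + π) (a + π) ≤ κ * (1 + π / 2) := by
    rw [hWs]
    exact mul_le_mul_of_nonneg_left (by linarith) hκ.le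
  have hterm : ∀ i, max 0 (min 1 (g S i p (a + π))) ≤
      max 0 (min (g S i p (t + π)) (g S i p (max (t + π) (min (a + π) (t + π + π))))) := by
    intro i
    rw [clamp_eq (by linarith) (by linarith)]
    rcases le_or_gt (min 1 (g S i p (a + π))) 0 with h | h
    · rw [max_eq_left h]; exact le_max_left _ _
    · refine max_le (le_max_left _ _) (le_max_of_le_right (le_min ?_ (min_le_right _ _)))
      exact g_mid S (s := t + π / 2) (u := a + π) (by linarith) (by linarith) (by linarith) h
        ((min_le_left _ _).trans (hg i)) (min_le_right _ _)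
  have hsum : ∑ i, max 0 (min 1 (g S i p (a + π))) ≤ κ * (1 + π / 2) := by
    refine le_trans ?_ hWs2
    unfold W
    exact Finset.sum_le_sum fun i _ => hterm i
  have hlt : ∀ i, g S i p (a + π) < 1 := by
    intro i
    by_contra hcon
    push Not at hcon
    have h1 := Finset.single_le_sum (s := Finset.univ)
      (f := fun i => max 0 (min 1 (g S i p (a + π)))) (fun i _ => le_max_left _ _)
      (Finset.mem_univ i)
    simp only [min_eq_left hcon] at h1
    rw [max_eq_right zero_le_one] at h1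
    linarith
  have hback : W S p (a + π) (a + π) ≤ κ * (1 + π / 2) := by
    rw [W_self]
    refine le_trans (le_of_eq ?_) hsum
    refine Finset.sum_congr rfl fun i _ => ?_
    rw [min_eq_right (hlt i).le]
  -- the far direction of the reversed second line
  have hb' : F (p, a + π) < t + 3 * π / 2 := by
    refine far_upper' hκ hF ?_
    rw [W_zero S (by linarith) (by linarith) (fun i => (hgn i).le)]
    have : 0 < 1 + (t + 3 * π / 2) - (a + π) := by linarith
    positivity
  -- the far direction of the second line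
  have hfront : η / 2 < W S p a a := by
    have := hst p a
    linarith
  have hb : t + π / 2 ≤ F (p, a) := by
    refine far_lower hκ hF ?_
    rw [W_self] at hfront
    obtain ⟨i, hi⟩ : ∃ i, η / (2 * (Fintype.card ι + 1)) ≤ g S i p a := by
      by_contra hno
      push Not at hno
      have h1 : ∑ i, max 0 (g S i p a) ≤
          ∑ _i : ι, η / (2 * ((Fintype.card ι : ℝ) + 1)) := by
        refine Finset.sum_le_sum fun i _ => max_le (by positivity) (hno i).le
      rw [Finset.sum_const, Finset.card_univ, nsmul_eq_mul] at h1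
      have h2 : (Fintype.card ι : ℝ) * (η / (2 * ((Fintype.card ι : ℝ) + 1))) ≤ η / 2 := by
        rw [mul_div_assoc', div_le_div_iff₀ (by positivity) (by norm_num)]
        nlinarith
      linarith
    have h2 := W_single S i (p := p) (s := a) (t := t + π / 2) ha1.le (by linarith)
    refine le_trans ?_ h2
    have h3 : κ * (1 + (t + π / 2) - a) ≤ κ * (1 + π) :=
      mul_le_mul_of_nonneg_left (by linarith) hκ.le
    refine h3.trans (le_min ?_ ?_)
    · refine hκ1.trans (le_trans ?_ hi)
      exact div_le_div_of_nonneg_right (min_le_right _ _) (by positivity)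
    · exact (hk1.trans (by norm_num)).trans (hg i)
  unfold w1
  rw [← haeq]
  linarith

end Pool.Agent.RK68
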