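import Pool.Agent.RK68.Pencil

/-!
# Existence of a balanced pencil
-/

namespace Pool.Agent.RK68

open Real Set

variable {ι : Type} [Fintype ι] {S : Sys ι} {κ : ℝ} {F : (ℝ × ℝ) × ℝ → ℝ}

lemma zero_delta [Nonempty ι] (hκ : 0 < κ) (hF : IsFar S κ F) {η : ℝ} (hst : Star S η)
    (hη : 0 < η) (hκ1 : κ * (1 + π) ≤ min 1 η / (2 * (Fintype.card ι + 1)))
    {R : ℝ} (hR : ∀ i t, |S.h i t| ≤ R) {d : ℝ} (hd : 0 < d) (hd1 : d * (R + 1) ≤ 1) :
    ∃ t c x : ℝ, t ∈ Icc 0 (2 * π) ∧ c ∈ Icc 0 (R + 1) ∧ x ∈ Icc (-(R + 1)) (R + 1) ∧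
      |D F (pos t c x) t| ≤ d * (R + 1) ∧ w1 F (pos t c x) t = 0 ∧
      w2 F (pos t c x) t = 0 := by
  have hpi := pi_pos
  have hR0 : 0 ≤ R := (abs_nonneg _).trans (hR (Classical.arbitrary ι) 0)
  obtain ⟨X, hX, hXD⟩ := exists_X hκ hF hd
  set P : ℝ × ℝ → ℝ × ℝ := fun z => pos z.1 z.2 (X z) with hP
  have hPc : Continuous P :=
    pos_cont.comp (by fun_prop : Continuous fun z : ℝ × ℝ => (z.1, z.2, X z))
  have hV1 : Continuous fun z : ℝ × ℝ => w1 F (P z) z.1 :=
    (w1_cont hF.1).comp (hPc.prodMk continuous_fst)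
  have hV2 : Continuous fun z : ℝ × ℝ => w2 F (P z) z.1 :=
    (w2_cont hF.1).comp (hPc.prodMk continuous_fst)
  -- periodicity
  have hXper : ∀ t c, X (t + 2 * π, c) = X (t, c) := by
    intro t c
    refine X_unique hκ hF hd (t := t) (c := c) ?_ (hXD t c)
    have := hXD (t + 2 * π) c
    rwa [pos_per, D_per hκ hF] at this
  have hPper : ∀ t c, P (t + 2 * π, c) = P (t, c) := by
    intro t c
    simp only [hP, hXper, pos_per]
  have hXrev : ∀ t, X (t + π, 0) = - X (t, 0) := by
    intro t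
    have h1 : D F (pos t 0 (-X (t + π, 0))) t = - (d * (-X (t + π, 0))) := by
      have h2 := hXD (t + π) 0
      have h3 := pos_rev t 0 (-X (t + π, 0))
      rw [neg_zero, neg_neg] at h3
      rw [h3, D_rev hκ hF] at h2
      linarith
    have := X_unique hκ hF hd h1 (hXD t 0)
    linarith
  have hPrev : ∀ t, P (t + π, 0) = P (t, 0) := by
    intro t
    simp only [hP, hXrev]
    have := pos_rev t 0 (X (t, 0))
    rwa [neg_zero] at this
  -- the sign far forward
  have hfar : ∀ t c x, R + 1 ≤ x → D F (pos t c x) t < 0 → 0 < w1 F (pos t c x) t := by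
    intro t c x hx hDx
    refine sign hκ hF hst hη hκ1 (fun i => ?_) hDx
    rw [g_pos, show t + π / 2 - t = π / 2 by ring, cos_pi_div_two, sin_pi_div_two]
    have := (abs_le.mp (hR i (t + π / 2))).1
    linarith
  -- the top
  have htop : ∀ t, 0 < w1 F (P (t, R + 1)) t := by
    intro t
    have hD1 : D F (P (t, R + 1)) t ≤ -1 := by
      have h1 : F (P (t, R + 1), t) ≤ t - 1 := by
        refine far_upper hκ hF ?_
        have e : κ * (1 + (t - 1) - t) = 0 := by ring
        rw [e]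
        apply le_of_eq
        unfold W
        refine Finset.sum_eq_zero fun i _ => ?_
        refine max_eq_left ((min_le_left _ _).trans ?_)
        simp only [hP]
        rw [g_pos, sub_self, cos_zero, sin_zero]
        have := (abs_le.mp (hR i t)).2
        linarith
      have h2 : t + π ≤ F (P (t, R + 1), t + π) := by
        refine far_lower hκ hF ?_
        rw [show 1 + (t + π) - (t + π) = 1 by ring, mul_one]
        have h3 := W_single S (Classical.arbitrary ι) (p := P (t, R + 1)) (s := t + π)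
          (t := t + π) le_rfl (by linarith)
        refine le_trans ?_ h3
        rw [min_self]
        simp only [hP]
        rw [g_pos, show t + π - t = π by ring, cos_pi, sin_pi]
        have h4 := (abs_le.mp (hR (Classical.arbitrary ι) (t + π))).1
        have h5 : κ ≤ 1 := by
          have h6 : min 1 η / (2 * ((Fintype.card ι : ℝ) + 1)) ≤ 1 := by
            rw [div_le_one (by positivity)]
            have := min_le_left 1 η
            have : (0 : ℝ) ≤ Fintype.card ι := Nat.cast_nonneg _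
            linarith
          nlinarith
        linarith
      unfold D
      linarith
    have hX1 : R + 1 ≤ X (t, R + 1) := by
      have h1 := hXD t (R + 1)
      have h2 : 1 ≤ d * X (t, R + 1) := by
        simp only [hP] at hD1
        linarith
      by_contra hcon
      push Not at hcon
      nlinarith
    exact hfar t (R + 1) _ hX1 (by simp only [hP] at hD1; linarith)
  obtain ⟨t0, c, hc0, hc1, hz1, hz2⟩ := annulus (fun z => w1 F (P z) z.1)
    (fun z => w2 F (P z) z.1) hV1 hV2 (R + 1) (by linarith)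
    (by intro t c; simp only [hPper, w1_per hκ hF])
    (by intro t c; simp only [hPper, w2_per hκ hF])
    (by intro t; simp only [hPrev, w1_rev hκ hF])
    (by intro t; simp only [hPrev, w2_rev hκ hF])
    htop
  -- normalise the direction
  have hperi : Function.Periodic (fun t : ℝ => (w1 F (P (t, c)) t, w2 F (P (t, c)) t))
      (2 * π) := by
    intro t
    simp only [hPper, w1_per hκ hF, w2_per hκ hF]
  obtain ⟨t, ht, hteq⟩ := hperi.exists_mem_Ico₀ (by positivity) t0
  simp only [Prod.mk.injEq] at hteq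
  have hw1 : w1 F (P (t, c)) t = 0 := by rw [← hteq.1]; exact hz1
  have hw2 : w2 F (P (t, c)) t = 0 := by rw [← hteq.2]; exact hz2
  have hXle : X (t, c) ≤ R + 1 := by
    by_contra hcon
    push Not at hcon
    have h1 := hfar t c (X (t, c)) hcon.le (by
      rw [hXD]
      have : 0 < d * X (t, c) := mul_pos hd (by linarith)
      linarith)
    simp only [hP] at hw1
    linarith
  have hXge : -(R + 1) ≤ X (t, c) := by
    by_contra hcon
    push Not at hcon
    have hp := pos_rev t c (X (t, c))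
    have h1 := hfar (t + π) (-c) (-X (t, c)) (by linarith) (by
      rw [hp, D_rev hκ hF, hXD]
      have : 0 < d * (- X (t, c)) := mul_pos hd (by linarith)
      linarith)
    rw [hp, w1_rev hκ hF] at h1
    simp only [hP] at hw1
    linarith
  refine ⟨t, c, X (t, c), ⟨ht.1, ht.2.le⟩, ⟨hc0, hc1⟩, ⟨hXge, hXle⟩, ?_, hw1, hw2⟩
  rw [hXD, abs_neg, abs_mul, abs_of_pos hd]
  exact mul_le_mul_of_nonneg_left (abs_le.mpr ⟨hXge, hXle⟩) hd.le

/-- Existence of a balanced pencil. -/
theorem exists_balanced [Nonempty ι] (hκ : 0 < κ) (hF : IsFar S κ F) {η : ℝ} (hst : Star S η)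
    (hη : 0 < η) (hκ1 : κ * (1 + π) ≤ min 1 η / (2 * (Fintype.card ι + 1)))
    {R : ℝ} (hR : ∀ i t, |S.h i t| ≤ R) :
    ∃ (p : ℝ × ℝ) (t a b e : ℝ), F (p, t) = a ∧ F (p, t + π) = a + π ∧ F (p, a) = b ∧
      F (p, a + π) = b + π ∧ F (p, b) = e ∧ F (p, b + π) = e + π := by
  have hpi := pi_pos
  have hR0 : 0 ≤ R := (abs_nonneg _).trans (hR (Classical.arbitrary ι) 0)
  set K : Set (ℝ × ℝ × ℝ) := Icc 0 (2 * π) ×ˢ (Icc 0 (R + 1) ×ˢ Icc (-(R + 1)) (R + 1)) with hK
  have hKc : IsCompact K := isCompact_Icc.prod (isCompact_Icc.prod isCompact_Icc)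
  set G : ℝ × ℝ × ℝ → ℝ := fun z => |D F (pos z.1 z.2.1 z.2.2) z.1| +
    |w1 F (pos z.1 z.2.1 z.2.2) z.1| + |w2 F (pos z.1 z.2.1 z.2.2) z.1| with hG
  have hGc : Continuous G := by
    have h0 : Continuous fun z : ℝ × ℝ × ℝ => (pos z.1 z.2.1 z.2.2, z.1) :=
      pos_cont.prodMk continuous_fst
    exact (((D_cont hF.1).comp h0).abs.add ((w1_cont hF.1).comp h0).abs).add
      ((w2_cont hF.1).comp h0).abs
  have hKne : K.Nonempty := ⟨(0, 0, 0), ⟨⟨le_rfl, by positivity⟩, ⟨le_rfl, by linarith⟩,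
    ⟨by linarith, by linarith⟩⟩⟩
  obtain ⟨z, hz, hmin⟩ := hKc.exists_isMinOn hKne hGc.continuousOn
  have hle : ∀ d : ℝ, 0 < d → d * (R + 1) ≤ 1 → G z ≤ d * (R + 1) := by
    intro d hd hd1
    obtain ⟨t, c, x, ht, hc, hx, h1, h2, h3⟩ := zero_delta hκ hF hst hη hκ1 hR hd hd1
    have h4 : G z ≤ G (t, c, x) := hmin (⟨ht, hc, hx⟩ : (t, c, x) ∈ K)
    refine h4.trans ?_
    simp only [hG, h2, h3, abs_zero, add_zero]
    exact h1
  have hG0 : G z ≤ 0 := by
    by_contra hcon
    push Not at hcon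
    have h1 : 0 < min 1 (G z) / 2 := by
      have : 0 < min 1 (G z) := lt_min one_pos hcon
      linarith
    have e : min 1 (G z) / 2 / (R + 1) * (R + 1) = min 1 (G z) / 2 := by
      field_simp
    have h2 := hle (min 1 (G z) / 2 / (R + 1)) (by positivity) (by
      rw [e]
      have := min_le_left 1 (G z)
      linarith)
    rw [e] at h2
    have := min_le_right 1 (G z)
    linarith
  have a1' := abs_nonneg (D F (pos z.1 z.2.1 z.2.2) z.1)
  have a2' := abs_nonneg (w1 F (pos z.1 z.2.1 z.2.2) z.1)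
  have a3' := abs_nonneg (w2 F (pos z.1 z.2.1 z.2.2) z.1)
  simp only [hG] at hG0
  have b1 : D F (pos z.1 z.2.1 z.2.2) z.1 = 0 := abs_eq_zero.mp (by linarith)
  have b2 : w1 F (pos z.1 z.2.1 z.2.2) z.1 = 0 := abs_eq_zero.mp (by linarith)
  have b3 : w2 F (pos z.1 z.2.1 z.2.2) z.1 = 0 := abs_eq_zero.mp (by linarith)
  set p := pos z.1 z.2.1 z.2.2 with hp
  have c1 : F (p, z.1 + π) = F (p, z.1) + π := by unfold D at b1; linarith
  have c2 : a1 F p z.1 = F (p, z.1) := by
    unfold a1
    rw [c1, add_sub_cancel_right, max_self]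
  unfold w1 at b2
  unfold w2 at b3
  rw [c2] at b2 b3
  have c3 : F (p, F (p, z.1) + π) = F (p, F (p, z.1)) + π := by linarith
  rw [c3] at b3
  exact ⟨p, z.1, F (p, z.1), F (p, F (p, z.1)), F (p, F (p, F (p, z.1))), rfl, c1, rfl, c3, rfl,
    by linarith⟩

end Pool.Agent.RK68
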